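import Pool.Agent.P8H31.PW.Stm

/-!
Part FOU of project PWV: the fourth moment of a trigonometric polynomial on the grid of `2N` points.
-/

set_option autoImplicit false

open Finset

namespace Pool.Agent.P8H55.PWV

open Pool.Agent.P8H31.PW

/-- **Part FOU** -/
theorem fou : S_FOU := by
  intro N hN p
  have hN0 : (N : ℂ) ≠ 0 := by exact_mod_cast (by omega : N ≠ 0)
  obtain ⟨ζ, hζ⟩ : ∃ ζ : ℂ, ζ = Complex.exp (2 * Real.pi * Complex.I / ((2 * N : ℕ) : ℂ)) :=
    ⟨_, rfl⟩
  have hprim : IsPrimitiveRoot ζ (2 * N) := by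
    rw [hζ]
    exact Complex.isPrimitiveRoot_exp (2 * N) (by omega)
  have hze : ∀ j k : ℕ, ze N j k = ζ ^ (j * k) := by
    intro j k
    rw [hζ, ← Complex.exp_nat_mul]
    unfold ze
    congr 1
    push_cast
    field_simp
  have hnorm : ‖ζ‖ = 1 := hprim.norm'_eq_one (by omega)
  have hmul : ζ * (starRingEnd ℂ) ζ = 1 := by
    rw [Complex.mul_conj', hnorm]
    norm_num
  have hz1 : ζ ^ (2 * N) = 1 := hprim.pow_eq_one
  have hz2 : ((starRingEnd ℂ) ζ) ^ (2 * N) = 1 := by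
    rw [← map_pow, hz1, map_one]
  have hin : ∀ a ∈ range N, ∀ b ∈ range N, ∀ c ∈ range N, ∀ d ∈ range N,
      ∑ j ∈ range (2 * N), (ζ ^ (a + b) * ((starRingEnd ℂ) ζ) ^ (c + d)) ^ j =
        if a + b = c + d then (2 * N : ℂ) else 0 := by
    intro a ha b hb c hc d hd
    rw [mem_range] at ha hb hc hd
    split_ifs with h
    · rw [← h, ← mul_pow, hmul]
      simp
    · obtain ⟨w, hw⟩ : ∃ w : ℂ, w = ζ ^ (a + b) * ((starRingEnd ℂ) ζ) ^ (c + d) := ⟨_, rfl⟩
      rw [← hw]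
      have hwN : w ^ (2 * N) = 1 := by
        rw [hw, mul_pow, pow_right_comm ζ, pow_right_comm ((starRingEnd ℂ) ζ), hz1, hz2, one_pow,
          one_pow, one_mul]
      have hw1 : w ≠ 1 := by
        intro h1
        apply h
        refine hprim.pow_inj (by omega) (by omega) ?_
        calc ζ ^ (a + b) = ζ ^ (a + b) * (ζ * (starRingEnd ℂ) ζ) ^ (c + d) := by
              rw [hmul, one_pow, mul_one]
          _ = w * ζ ^ (c + d) := by
              rw [hw, mul_pow]
              ring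
          _ = ζ ^ (c + d) := by rw [h1, one_mul]
      have hg := mul_neg_geom_sum w (2 * N)
      rw [hwN, sub_self] at hg
      rcases mul_eq_zero.1 hg with h2 | h2
      · exact absurd (sub_eq_zero.1 h2).symm hw1
      · exact h2
  have hterm : ∀ j : ℕ, ((‖∑ k ∈ range N, ze N j k * p k‖ ^ 4 : ℝ) : ℂ) =
      ∑ a ∈ range N, ∑ b ∈ range N, ∑ c ∈ range N, ∑ d ∈ range N,
        (ζ ^ (a + b) * ((starRingEnd ℂ) ζ) ^ (c + d)) ^ j *
          (p a * p b * (starRingEnd ℂ) (p c) * (starRingEnd ℂ) (p d)) := by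
    intro j
    obtain ⟨S, hS⟩ : ∃ S : ℂ, S = ∑ k ∈ range N, ze N j k * p k := ⟨_, rfl⟩
    have hS1 : S = ∑ k ∈ range N, ζ ^ (j * k) * p k := by
      rw [hS]
      exact sum_congr rfl fun k _ => by rw [hze]
    have hS2 : (starRingEnd ℂ) S =
        ∑ k ∈ range N, ((starRingEnd ℂ) ζ) ^ (j * k) * (starRingEnd ℂ) (p k) := by
      rw [hS1, map_sum]
      exact sum_congr rfl fun k _ => by rw [map_mul, map_pow]
    rw [← hS]
    have h4 : ((‖S‖ ^ 4 : ℝ) : ℂ) = S * S * ((starRingEnd ℂ) S * (starRingEnd ℂ) S) := by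
      have := Complex.mul_conj' S
      push_cast
      calc (‖S‖ : ℂ) ^ 4 = ((‖S‖ : ℂ) ^ 2) * ((‖S‖ : ℂ) ^ 2) := by ring
        _ = _ := by
          rw [← this]
          ring
    rw [h4, hS2, hS1, sum_mul_sum, sum_mul_sum, sum_mul]
    refine sum_congr rfl fun a _ => ?_
    rw [sum_mul]
    refine sum_congr rfl fun b _ => ?_
    rw [mul_sum]
    refine sum_congr rfl fun c _ => ?_
    rw [mul_sum]
    refine sum_congr rfl fun d _ => ?_
    have e1 : (ζ ^ (a + b)) ^ j = ζ ^ (j * a) * ζ ^ (j * b) := by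
      rw [← pow_mul, ← pow_add]
      congr 1
      ring
    have e2 : (((starRingEnd ℂ) ζ) ^ (c + d)) ^ j =
        ((starRingEnd ℂ) ζ) ^ (j * c) * ((starRingEnd ℂ) ζ) ^ (j * d) := by
      rw [← pow_mul, ← pow_add]
      congr 1
      ring
    rw [mul_pow, e1, e2]
    ring
  rw [sum_congr rfl fun j _ => hterm j, sum_comm, mul_sum]
  refine sum_congr rfl fun a ha => ?_
  rw [sum_comm, mul_sum]
  refine sum_congr rfl fun b hb => ?_
  rw [sum_comm, mul_sum]
  refine sum_congr rfl fun c hc => ?_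
  rw [sum_comm, mul_sum]
  refine sum_congr rfl fun d hd => ?_
  rw [← sum_mul, hin a ha b hb c hc d hd]
  split_ifs
  · rfl
  · rw [zero_mul, mul_zero]

end Pool.Agent.P8H55.PWV
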